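import Pool.Agent.H82.NS.Def

/-!
# [H51 CWF Fa] classes of sequences, nonstandard algebraic integers
-/

set_option autoImplicit false

namespace Pool.Agent.H51.CWF

open Filter IntermediateField Pool.Agent.H82.NS

/-- `cl` as a ring homomorphism -/
noncomputable def clH (R : Type*) [CommRing R] : (ℕ → R) →+* Ult R where
  toFun := cl
  map_one' := rfl
  map_zero' := rfl
  map_mul' _ _ := rfl
  map_add' _ _ := rfl

theorem clH_apply {R : Type*} [CommRing R] (f : ℕ → R) : clH R f = cl f := rfl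

theorem cl_pow {R : Type*} [CommRing R] (f : ℕ → R) (n : ℕ) : cl f ^ n = cl (fun N => f N ^ n) := by
  rw [← clH_apply, ← map_pow]
  rfl

theorem cl_sum {R : Type*} [CommRing R] {ι : Type*} (s : Finset ι) (f : ι → ℕ → R) :
    ∑ i ∈ s, cl (f i) = cl (fun N => ∑ i ∈ s, f i N) := by
  have h : ∀ i, cl (f i) = clH R (f i) := fun i => rfl
  simp_rw [h]
  rw [← map_sum]
  show cl _ = cl _
  congr 1
  funext N
  rw [Finset.sum_apply]

theorem cl_eq_zero {R : Type*} [CommRing R] {f : ℕ → R} : cl f = 0 ↔ ∀ᶠ N in UU, f N = 0 := by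
  rw [cl_zero, cl_eq]

/-- the value of a polynomial with coefficients `cl (c i)` at `cl t` -/
theorem cl_poly {R : Type*} [CommRing R] (n : ℕ) (c : ℕ → ℕ → R) (t : ℕ → R) :
    ∑ i ∈ Finset.range n, cl (c i) * cl t ^ i =
      cl (fun N => ∑ i ∈ Finset.range n, c i N * t N ^ i) := by
  rw [← cl_sum]
  refine Finset.sum_congr rfl fun i _ => ?_
  rw [cl_pow, cl_mul]

theorem monic_poly {R : Type*} [CommRing R] (n : ℕ) (c : ℕ → ℕ → R) (t : ℕ → R) :
    cl t ^ n + ∑ i ∈ Finset.range n, cl (c i) * cl t ^ i =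
      cl (fun N => t N ^ n + ∑ i ∈ Finset.range n, c i N * t N ^ i) := by
  rw [cl_poly, cl_pow, cl_add]

/-- integrality over a subring, in elementary form -/
theorem integral_iff {R S : Type*} [CommRing R] [CommRing S] [Algebra R S] {z : S} :
    IsIntegral R z ↔ ∃ (n : ℕ) (a : ℕ → R),
      z ^ n + ∑ i ∈ Finset.range n, algebraMap R S (a i) * z ^ i = 0 := by
  constructor
  · rintro ⟨p, hp, hz⟩
    refine ⟨p.natDegree, p.coeff, ?_⟩
    rw [hp.as_sum] at hz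
    simpa [Polynomial.eval₂_finsetSum] using hz
  · rintro ⟨n, a, h⟩
    refine ⟨Polynomial.X ^ n + ∑ i ∈ Finset.range n, Polynomial.C (a i) * Polynomial.X ^ i, ?_, ?_⟩
    · refine Polynomial.monic_X_pow_add ?_
      refine lt_of_le_of_lt (Polynomial.degree_sum_le _ _) ?_
      rw [Finset.sup_lt_iff (by
        rw [bot_lt_iff_ne_bot]
        exact WithBot.coe_ne_bot)]
      intro i hi
      refine lt_of_le_of_lt (Polynomial.degree_C_mul_X_pow_le _ _) ?_
      exact_mod_cast Finset.mem_range.1 hi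
    · simpa [Polynomial.eval₂_finsetSum] using h

/-- the nonstandard algebraic integers -/
noncomputable def OO : Subring QbS where
  carrier := {z | ∃ a : ℕ → Qb, (∀ N, IsIntegral ℤ (a N)) ∧ z = cl a}
  one_mem' := ⟨fun _ => 1, fun _ => isIntegral_one, rfl⟩
  zero_mem' := ⟨fun _ => 0, fun _ => isIntegral_zero, rfl⟩
  mul_mem' := by
    rintro _ _ ⟨f, hf, rfl⟩ ⟨g, hg, rfl⟩
    exact ⟨fun N => f N * g N, fun N => (hf N).mul (hg N), rfl⟩
  add_mem' := by
    rintro _ _ ⟨f, hf, rfl⟩ ⟨g, hg, rfl⟩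
    exact ⟨fun N => f N + g N, fun N => (hf N).add (hg N), rfl⟩
  neg_mem' := by
    rintro _ ⟨f, hf, rfl⟩
    exact ⟨fun N => - f N, fun N => (hf N).neg, rfl⟩

theorem mem_OO {a : ℕ → Qb} : cl a ∈ OO ↔ ∀ᶠ N in UU, IsIntegral ℤ (a N) := by
  constructor
  · rintro ⟨b, hb, h⟩
    filter_upwards [cl_eq.1 h] with N hN
    rw [hN]
    exact hb N
  · intro h
    classical
    refine ⟨fun N => if IsIntegral ℤ (a N) then a N else 0, fun N => ?_, ?_⟩
    · show IsIntegral ℤ (if IsIntegral ℤ (a N) then a N else 0)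
      split_ifs with hN
      · exact hN
      · exact isIntegral_zero
    · rw [cl_eq]
      filter_upwards [h] with N hN
      rw [if_pos hN]

theorem OO_root {n : ℕ} {a : ℕ → QbS} (ha : ∀ i, a i ∈ OO) {z : QbS}
    (h : z ^ n + ∑ i ∈ Finset.range n, a i * z ^ i = 0) : z ∈ OO := by
  choose b hb hab using ha
  obtain ⟨t, rfl⟩ := cl_surj z
  have h1 : cl t ^ n + ∑ i ∈ Finset.range n, cl (b i) * cl t ^ i = 0 := by
    rw [← h]
    congr 1
    exact Finset.sum_congr rfl fun i _ => by rw [hab i]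
  rw [monic_poly, cl_eq_zero] at h1
  rw [mem_OO]
  filter_upwards [h1] with N hN
  have h2 : IsIntegral (integralClosure ℤ Qb) (t N) :=
    integral_iff.2 ⟨n, fun i => ⟨b i N, hb i N⟩, hN⟩
  exact isIntegral_trans (t N) h2

/-- bounded denominators -/
def SN (H : ℕ → ℕ) (δ : ℕ → ℕ) : Prop := ∃ C : ℕ, ∀ N, δ N ≠ 0 ∧ δ N ≤ (H N + 2) ^ C

theorem SN.mul {H δ δ' : ℕ → ℕ} (h : SN H δ) (h' : SN H δ') : SN H (fun N => δ N * δ' N) := by
  obtain ⟨C, hC⟩ := h
  obtain ⟨D, hD⟩ := h'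
  refine ⟨C + D, fun N => ⟨mul_ne_zero (hC N).1 (hD N).1, ?_⟩⟩
  rw [pow_add]
  exact Nat.mul_le_mul (hC N).2 (hD N).2

theorem SN.one {H : ℕ → ℕ} : SN H (fun _ => 1) := ⟨0, fun N => ⟨one_ne_zero, by simp⟩⟩

/-- the class of a sequence of natural numbers -/
noncomputable def cn (δ : ℕ → ℕ) : QbS := cl (fun N => (δ N : Qb))

theorem cn_mul (δ δ' : ℕ → ℕ) : cn (fun N => δ N * δ' N) = cn δ * cn δ' := by
  unfold cn
  rw [cl_mul]
  congr 1
  funext N
  push_cast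
  rfl

theorem cn_mem (δ : ℕ → ℕ) : cn δ ∈ OO := ⟨_, fun N => isIntegral_natCast (δ N), rfl⟩

theorem cn_ne_zero {H δ : ℕ → ℕ} (h : SN H δ) : cn δ ≠ 0 := by
  obtain ⟨C, hC⟩ := h
  intro h0
  unfold cn at h0
  rw [cl_eq_zero] at h0
  obtain ⟨N, hN⟩ := h0.exists
  exact (hC N).1 (by exact_mod_cast hN)

/-- the elements with a bounded denominator -/
noncomputable def DD (H : ℕ → ℕ) : Subring QbS where
  carrier := {z | ∃ δ : ℕ → ℕ, SN H δ ∧ cn δ * z ∈ OO}
  one_mem' := ⟨fun _ => 1, SN.one, OO.mul_mem (cn_mem _) OO.one_mem⟩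
  zero_mem' := ⟨fun _ => 1, SN.one, OO.mul_mem (cn_mem _) OO.zero_mem⟩
  mul_mem' := by
    rintro a b ⟨δ, hδ, ha⟩ ⟨δ', hδ', hb⟩
    refine ⟨fun N => δ N * δ' N, hδ.mul hδ', ?_⟩
    rw [cn_mul]
    have : cn δ * cn δ' * (a * b) = (cn δ * a) * (cn δ' * b) := by ring
    rw [this]
    exact OO.mul_mem ha hb
  add_mem' := by
    rintro a b ⟨δ, hδ, ha⟩ ⟨δ', hδ', hb⟩
    refine ⟨fun N => δ N * δ' N, hδ.mul hδ', ?_⟩
    rw [cn_mul]
    have : cn δ * cn δ' * (a + b) = cn δ' * (cn δ * a) + cn δ * (cn δ' * b) := by ring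
    rw [this]
    exact OO.add_mem (OO.mul_mem (cn_mem _) ha) (OO.mul_mem (cn_mem _) hb)
  neg_mem' := by
    rintro a ⟨δ, hδ, ha⟩
    refine ⟨δ, hδ, ?_⟩
    rw [mul_neg]
    exact OO.neg_mem ha

theorem OO_le_DD (H : ℕ → ℕ) {z : QbS} (hz : z ∈ OO) : z ∈ DD H :=
  ⟨fun _ => 1, SN.one, OO.mul_mem (cn_mem _) hz⟩

/-- a common denominator of finitely many elements -/
theorem DD_common (H : ℕ → ℕ) (n : ℕ) (a : ℕ → QbS) (ha : ∀ i, a i ∈ DD H) :
    ∃ δ : ℕ → ℕ, SN H δ ∧ ∀ i < n, cn δ * a i ∈ OO := by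
  induction n with
  | zero => exact ⟨fun _ => 1, SN.one, fun i hi => absurd hi (Nat.not_lt_zero i)⟩
  | succ n ih =>
    obtain ⟨δ, hδ, h1⟩ := ih
    obtain ⟨δ', hδ', h2⟩ := ha n
    refine ⟨fun N => δ N * δ' N, hδ.mul hδ', fun i hi => ?_⟩
    rw [cn_mul]
    rcases Nat.lt_succ_iff_lt_or_eq.1 hi with h | rfl
    · have : cn δ * cn δ' * a i = cn δ' * (cn δ * a i) := by ring
      rw [this]
      exact OO.mul_mem (cn_mem _) (h1 i h)
    · have : cn δ * cn δ' * a i = cn δ * (cn δ' * a i) := by ring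
      rw [this]
      exact OO.mul_mem (cn_mem _) h2

theorem DD_root (H : ℕ → ℕ) {n : ℕ} {a : ℕ → QbS} (ha : ∀ i, a i ∈ DD H) {z : QbS}
    (h : z ^ n + ∑ i ∈ Finset.range n, a i * z ^ i = 0) : z ∈ DD H := by
  obtain ⟨δ, hδ, h1⟩ := DD_common H n a ha
  refine ⟨δ, hδ, ?_⟩
  classical
  refine OO_root (n := n) (a := fun i => if i < n then cn δ ^ (n - i - 1) * (cn δ * a i) else 0)
    (fun i => ?_) ?_
  · show (if i < n then cn δ ^ (n - i - 1) * (cn δ * a i) else 0) ∈ OO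
    split_ifs with hi
    · exact OO.mul_mem (OO.pow_mem (cn_mem _) _) (h1 i hi)
    · exact OO.zero_mem
  · have h2 : ∀ i ∈ Finset.range n, (if i < n then cn δ ^ (n - i - 1) * (cn δ * a i) else 0) *
        (cn δ * z) ^ i = cn δ ^ n * (a i * z ^ i) := by
      intro i hi
      have hi' := Finset.mem_range.1 hi
      rw [if_pos hi']
      have e : cn δ ^ n = cn δ ^ (n - i - 1) * cn δ * cn δ ^ i := by
        rw [← pow_succ, ← pow_add]
        congr 1
        omega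
      rw [e, mul_pow]
      ring
    rw [Finset.sum_congr rfl h2, ← Finset.mul_sum, mul_pow, ← mul_add, h, mul_zero]

theorem Q0_le_DD (H : ℕ → ℕ) (z : Q0 H) : algebraMap (Q0 H) QbS z ∈ DD H := by
  obtain ⟨z, f, hf, rfl⟩ := z
  obtain ⟨C, hC⟩ := hf
  refine ⟨fun N => (f N).den, ⟨C, fun N => ⟨(f N).den_nz, (hC N).2⟩⟩, ?_⟩
  refine ⟨fun N => (((f N).num : ℤ) : Qb), fun N => isIntegral_intCast _, ?_⟩
  show cn (fun N => (f N).den) * algebraMap QS QbS (cl f) = _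
  rw [algebraMap_cl]
  unfold cn
  rw [cl_mul]
  congr 1
  funext N
  have h1 : ((f N).den : ℚ) * f N = (f N).num := by
    rw [mul_comm]
    exact Rat.mul_den_eq_num (f N)
  have h2 := congrArg (algebraMap ℚ Qb) h1
  rw [map_mul] at h2
  simpa using h2

theorem Q0bar_le_DD (H : ℕ → ℕ) {z : QbS} (hz : z ∈ Q0bar H) : z ∈ DD H := by
  have h1 : IsIntegral (Q0 H) z := (mem_algebraicClosure_iff.1 hz).isIntegral
  obtain ⟨n, a, h⟩ := integral_iff.1 h1
  exact DD_root H (fun i => Q0_le_DD H (a i)) h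

theorem adjoin_le_DD (H : ℕ → ℕ) {x : QbS} (hx : x ∈ OO) {z : QbS}
    (hz : z ∈ Algebra.adjoin (Q0bar H) {x}) : z ∈ DD H := by
  induction hz using Algebra.adjoin_induction with
  | mem z hz =>
    rw [Set.mem_singleton_iff.1 hz]
    exact OO_le_DD H hx
  | algebraMap r => exact Q0bar_le_DD H r.2
  | add a b _ _ ha hb => exact (DD H).add_mem ha hb
  | mul a b _ _ ha hb => exact (DD H).mul_mem ha hb

theorem int_DD (H : ℕ → ℕ) {x : QbS} (hx : x ∈ OO) {z : QbS}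
    (hz : IsIntegral (Algebra.adjoin (Q0bar H) {x}) z) : z ∈ DD H := by
  obtain ⟨n, a, h⟩ := integral_iff.1 hz
  exact DD_root H (fun i => adjoin_le_DD H hx (a i).2) h

theorem ZS_le_OO {x : QS} (hx : x ∈ ZS) : algebraMap QS QbS x ∈ OO := by
  obtain ⟨z, rfl⟩ := hx
  obtain ⟨a, rfl⟩ := cl_surj z
  refine ⟨fun N => ((a N : ℤ) : Qb), fun N => isIntegral_intCast _, ?_⟩
  rw [germMap_cl, algebraMap_cl]
  congr 1

end Pool.Agent.H51.CWF
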