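import Mathlib

/-!
# [H51 CWF Fb] The discriminant of `ℚ(θ)` is bounded in terms of the conjugates of `θ`
-/

set_option autoImplicit false

open NumberField Module

noncomputable section

namespace Pool.Agent.H51.CWF

variable (K : Type*) [Field K] [NumberField K]

theorem disc_bound (θ : 𝓞 K) (hθ : IntermediateField.adjoin ℚ {(θ : K)} = ⊤) (R : ℝ) (hR : 1 ≤ R)
    (h : ∀ φ : K →+* ℂ, ‖φ (θ : K)‖ ≤ R) :
    |(discr K : ℝ)| ≤ (finrank ℚ K).factorial *
      ((finrank ℚ K : ℝ) * R ^ (2 * finrank ℚ K)) ^ finrank ℚ K := by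
  classical
  let b := RingOfIntegers.basis K
  let ι := Free.ChooseBasisIndex ℤ (𝓞 K)
  have hι : Fintype.card ι = finrank ℚ K := by
    rw [← RingOfIntegers.rank, finrank_eq_card_chooseBasisIndex]
  let e : ι ≃ Fin (finrank ℚ K) := Fintype.equivFinOfCardEq hι
  let c : ι → 𝓞 K := fun i => θ ^ (e i : ℕ)
  -- the matrix of `c`
  let P : Matrix ι ι ℤ := Matrix.of fun i j => b.repr (c i) j
  have hc : c = (P.map (algebraMap ℤ (𝓞 K))).mulVec b := by
    funext i
    show c i = ∑ j, (algebraMap ℤ (𝓞 K)) (b.repr (c i) j) * b j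
    conv_lhs => rw [← b.sum_repr (c i)]
    refine Finset.sum_congr rfl fun j _ => ?_
    rw [Algebra.smul_def]
  have hdisc : Algebra.discr ℤ c = P.det ^ 2 * discr K := by
    rw [hc, Algebra.discr_of_matrix_mulVec, NumberField.discr_eq_discr K b]
  -- not zero
  have hne : Algebra.discr ℤ c ≠ 0 := by
    have hint : IsIntegral ℚ (θ : K) := IsIntegral.tower_top θ.isIntegral_coe
    let pb := IntermediateField.adjoin.powerBasis hint
    let f : IntermediateField.adjoin ℚ {(θ : K)} ≃ₐ[ℚ] K :=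
      (IntermediateField.equivOfEq hθ).trans IntermediateField.topEquiv
    let pb' := pb.map f
    have hgen : pb'.gen = (θ : K) := by
      show f (IntermediateField.adjoin.powerBasis hint).gen = _
      rw [IntermediateField.adjoin.powerBasis_gen]
      rfl
    have hdim : pb'.dim = finrank ℚ K := (pb'.finrank).symm
    have h1 : Algebra.discr ℚ pb'.basis ≠ 0 := Algebra.discr_not_zero_of_basis ℚ pb'.basis
    let e' : ι ≃ Fin pb'.dim := e.trans (finCongr hdim.symm)
    have h2 : Algebra.discr ℚ (fun i : ι => ((c i : 𝓞 K) : K)) = Algebra.discr ℚ pb'.basis := by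
      rw [← Algebra.discr_reindex ℚ pb'.basis e'.symm]
      congr 1
      funext i
      show ((c i : 𝓞 K) : K) = pb'.basis (e'.symm.symm i)
      rw [pb'.basis_eq_pow, hgen]
      show ((θ ^ (e i : ℕ) : 𝓞 K) : K) = _
      rw [RingOfIntegers.coe_eq_algebraMap, map_pow]
      rfl
    have h3 : ((Algebra.discr ℤ c : ℤ) : ℚ) = Algebra.discr ℚ (fun i : ι => ((c i : 𝓞 K) : K)) := by
      rw [Algebra.discr_def, Algebra.discr_def]
      rw [Int.cast_det]
      congr 1
      ext i j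
      simp only [Matrix.map_apply, Algebra.traceMatrix_apply, Algebra.traceForm_apply]
      rw [← map_mul, Algebra.coe_trace_int]
    intro h0
    rw [h0, Int.cast_zero, h2] at h3
    exact h1 h3.symm
  have hdet : P.det ≠ 0 := by
    rintro h0
    rw [hdisc, h0] at hne
    simp at hne
  have hle1 : |(discr K : ℝ)| ≤ |((Algebra.discr ℤ c : ℤ) : ℝ)| := by
    rw [hdisc, Int.cast_mul, Int.cast_pow, abs_mul]
    have h1 : (1 : ℝ) ≤ |((P.det : ℤ) : ℝ) ^ 2| := by
      rw [abs_pow]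
      have : (1 : ℝ) ≤ |((P.det : ℤ) : ℝ)| := by
        rw [← Int.cast_abs]
        exact_mod_cast Int.one_le_abs hdet
      exact one_le_pow₀ this
    have h2 : 0 ≤ |(discr K : ℝ)| := abs_nonneg _
    nlinarith
  refine hle1.trans ?_
  have hRd : ∀ k : ℕ, k ≤ 2 * finrank ℚ K → ∀ φ : K →+* ℂ, ‖φ (θ : K)‖ ^ k ≤
      R ^ (2 * finrank ℚ K) := by
    intro k hk φ
    calc ‖φ (θ : K)‖ ^ k ≤ R ^ k := pow_le_pow_left₀ (norm_nonneg _) (h φ) k
      _ ≤ R ^ (2 * finrank ℚ K) := pow_le_pow_right₀ hR hk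
  have hentry : ∀ i j, |((Algebra.traceMatrix ℤ c i j : ℤ) : ℝ)| ≤
      (finrank ℚ K : ℝ) * R ^ (2 * finrank ℚ K) := by
    intro i j
    rw [Algebra.traceMatrix_apply, Algebra.traceForm_apply]
    have h1 : ((Algebra.trace ℤ (𝓞 K) (c i * c j) : ℤ) : ℂ) =
        ∑ φ : K →ₐ[ℚ] ℂ, φ ((c i * c j : 𝓞 K) : K) := by
      have h2 := trace_eq_sum_embeddings (K := ℚ) (L := K) ℂ (x := ((c i * c j : 𝓞 K) : K))
      rw [← h2]
      have h3 := Algebra.coe_trace_int (K := K) (c i * c j)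
      rw [← h3]
      simp
    have h4 : |((Algebra.trace ℤ (𝓞 K) (c i * c j) : ℤ) : ℝ)| =
        ‖((Algebra.trace ℤ (𝓞 K) (c i * c j) : ℤ) : ℂ)‖ := by
      rw [Complex.norm_intCast]
    rw [h4, h1]
    refine (norm_sum_le _ _).trans ?_
    have h5 : ∀ φ ∈ (Finset.univ : Finset (K →ₐ[ℚ] ℂ)), ‖φ ((c i * c j : 𝓞 K) : K)‖ ≤
        R ^ (2 * finrank ℚ K) := by
      intro φ _
      have h6 : ((c i * c j : 𝓞 K) : K) = (θ : K) ^ ((e i : ℕ) + (e j : ℕ)) := by
        show ((θ ^ (e i : ℕ) * θ ^ (e j : ℕ) : 𝓞 K) : K) = _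
        rw [← pow_add, RingOfIntegers.coe_eq_algebraMap, map_pow]
      rw [h6, map_pow, norm_pow]
      refine hRd _ ?_ (φ : K →+* ℂ)
      have h7 := (e i).2
      have h8 := (e j).2
      omega
    refine (Finset.sum_le_sum h5).trans ?_
    rw [Finset.sum_const, nsmul_eq_mul]
    have h9 : (Finset.univ : Finset (K →ₐ[ℚ] ℂ)).card = finrank ℚ K := by
      rw [Finset.card_univ, AlgHom.card]
    rw [h9]
  have hfin : |(((Algebra.traceMatrix ℤ c).det : ℤ) : ℝ)| ≤ (finrank ℚ K).factorial *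
      ((finrank ℚ K : ℝ) * R ^ (2 * finrank ℚ K)) ^ finrank ℚ K := by
    rw [Int.cast_det]
    have h1 := Matrix.det_le (A := (Algebra.traceMatrix ℤ c).map (Int.cast : ℤ → ℝ))
      (abv := (AbsoluteValue.abs : AbsoluteValue ℝ ℝ))
      (x := (finrank ℚ K : ℝ) * R ^ (2 * finrank ℚ K)) (fun i j => hentry i j)
    rw [hι] at h1
    simpa [nsmul_eq_mul] using h1
  rw [Algebra.discr_def]
  exact hfin

end Pool.Agent.H51.CWF
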