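import Pool.Agent.H51.CWF.Fa

/-!
# [H51 CWF Fc] elements of `Q0bar`: bounded conjugates, and the converse
-/

set_option autoImplicit false

namespace Pool.Agent.H51.CWF

open Filter IntermediateField Pool.Agent.H82.NS Polynomial

theorem mem_Q0bar_of_root (H : ℕ → ℕ) {n : ℕ} {a : ℕ → Q0 H} {z : QbS}
    (h : z ^ n + ∑ i ∈ Finset.range n, algebraMap (Q0 H) QbS (a i) * z ^ i = 0) : z ∈ Q0bar H := by
  have h1 : IsIntegral (Q0 H) z := integral_iff.2 ⟨n, a, h⟩
  exact mem_algebraicClosure_iff.2 h1.isAlgebraic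

theorem pow_absorb (h a : ℕ) : a ≤ (h + 2) ^ a := by
  calc a ≤ 2 ^ a := Nat.lt_two_pow_self.le
    _ ≤ (h + 2) ^ a := Nat.pow_le_pow_left (by omega) a

/-- sum of bounded terms -/
theorem sum_bound (H : ℕ → ℕ) (n : ℕ) (f : ℕ → ℕ → ℚ) (hf : ∀ i, Small H (f i)) :
    ∃ C : ℕ, ∀ N, (1 + ∑ i ∈ Finset.range n, |(f i N : ℝ)|) ≤ ((H N + 2 : ℕ) : ℝ) ^ C := by
  choose C hC using hf
  refine ⟨(∑ i ∈ Finset.range n, C i) + (n + 1), fun N => ?_⟩
  have hb : (1 : ℝ) ≤ ((H N + 2 : ℕ) : ℝ) := by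
    push_cast
    have : (0 : ℝ) ≤ H N := Nat.cast_nonneg _
    linarith
  have h1 : ∀ i ∈ Finset.range n, |(f i N : ℝ)| ≤
      ((H N + 2 : ℕ) : ℝ) ^ (∑ i ∈ Finset.range n, C i) := by
    intro i hi
    have e1 : |(f i N : ℝ)| ≤ ((f i N).num.natAbs : ℝ) := by
      have e2 : |f i N| ≤ ((f i N).num.natAbs : ℚ) := by
        rw [Nat.cast_natAbs, Int.cast_abs]
        have e3 : f i N * (f i N).den = (f i N).num := Rat.mul_den_eq_num (f i N)
        rw [← e3, abs_mul, Nat.abs_cast]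
        have e4 : (1 : ℚ) ≤ (f i N).den := by exact_mod_cast (f i N).den_pos
        have e5 : 0 ≤ |f i N| := abs_nonneg _
        nlinarith
      have e6 : ((|f i N| : ℚ) : ℝ) ≤ (((f i N).num.natAbs : ℚ) : ℝ) := by exact_mod_cast e2
      simpa using e6
    have e7 : ((f i N).num.natAbs : ℝ) ≤ ((H N + 2 : ℕ) : ℝ) ^ (C i) := by
      exact_mod_cast (hC i N).1
    refine e1.trans (e7.trans ?_)
    exact pow_le_pow_right₀ hb (Finset.single_le_sum (f := C) (fun _ _ => Nat.zero_le _) hi)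
  have h2 : ∑ i ∈ Finset.range n, |(f i N : ℝ)| ≤
      n * ((H N + 2 : ℕ) : ℝ) ^ (∑ i ∈ Finset.range n, C i) := by
    refine (Finset.sum_le_sum h1).trans ?_
    rw [Finset.sum_const, Finset.card_range, nsmul_eq_mul]
  have h3 : (1 : ℝ) ≤ ((H N + 2 : ℕ) : ℝ) ^ (∑ i ∈ Finset.range n, C i) := one_le_pow₀ hb
  have h4 : ((n + 1 : ℕ) : ℝ) ≤ ((H N + 2 : ℕ) : ℝ) ^ (n + 1) := by
    exact_mod_cast pow_absorb (H N) (n + 1)
  calc 1 + ∑ i ∈ Finset.range n, |(f i N : ℝ)|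
      ≤ ((H N + 2 : ℕ) : ℝ) ^ (∑ i ∈ Finset.range n, C i) * ((n + 1 : ℕ) : ℝ) := by
        push_cast at h2 h3 ⊢
        linarith
    _ ≤ ((H N + 2 : ℕ) : ℝ) ^ (∑ i ∈ Finset.range n, C i) * ((H N + 2 : ℕ) : ℝ) ^ (n + 1) := by
        gcongr
    _ = _ := by rw [← pow_add]

/-- a root of a monic polynomial is bounded by the coefficients -/
theorem root_bound (n : ℕ) (c : ℕ → ℂ) (w : ℂ)
    (h : w ^ n + ∑ i ∈ Finset.range n, c i * w ^ i = 0) :
    ‖w‖ ≤ 1 + ∑ i ∈ Finset.range n, ‖c i‖ := by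
  have h0 : 0 ≤ ∑ i ∈ Finset.range n, ‖c i‖ := Finset.sum_nonneg fun i _ => norm_nonneg _
  by_cases hw : ‖w‖ ≤ 1
  · linarith
  · push Not at hw
    cases n with
    | zero => simp at h
    | succ n =>
      have h1 : ‖w‖ ^ (n + 1) ≤ (∑ i ∈ Finset.range (n + 1), ‖c i‖) * ‖w‖ ^ n := by
        have e : w ^ (n + 1) = -∑ i ∈ Finset.range (n + 1), c i * w ^ i := by
          linear_combination h
        rw [← norm_pow, e, norm_neg, Finset.sum_mul]
        refine (norm_sum_le _ _).trans (Finset.sum_le_sum fun i hi => ?_)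
        rw [norm_mul, norm_pow]
        have hi' := Finset.mem_range.1 hi
        have : ‖w‖ ^ i ≤ ‖w‖ ^ n := pow_le_pow_right₀ hw.le (by omega)
        gcongr
      have h2 : 0 < ‖w‖ ^ n := by positivity
      rw [pow_succ, mul_comm] at h1
      have h3 := le_of_mul_le_mul_right h1 h2
      linarith

theorem conj_bound (H : ℕ → ℕ) (t : ℕ → Qb) (ht : cl t ∈ Q0bar H) :
    ∃ n C : ℕ, ∀ᶠ N in UU, (∃ p : ℚ[X], p.Monic ∧ p.natDegree ≤ n ∧ aeval (t N) p = 0) ∧
      ∀ φ : Qb →+* ℂ, ‖φ (t N)‖ ≤ ((H N + 2 : ℕ) : ℝ) ^ C := by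
  have h1 : IsIntegral (Q0 H) (cl t) := (mem_algebraicClosure_iff.1 ht).isIntegral
  obtain ⟨n, a, h⟩ := integral_iff.1 h1
  have hf : ∀ i, ∃ f : ℕ → ℚ, Small H f ∧ (a i : QS) = cl f := fun i => (a i).2
  choose f hf hfa using hf
  obtain ⟨C, hC⟩ := sum_bound H n f hf
  refine ⟨n, C, ?_⟩
  have h2 : cl t ^ n + ∑ i ∈ Finset.range n, cl (fun N => algebraMap ℚ Qb (f i N)) * cl t ^ i = 0 := by
    rw [← h]
    congr 1
    refine Finset.sum_congr rfl fun i _ => ?_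
    congr 1
    show _ = algebraMap QS QbS (a i : QS)
    rw [hfa i, algebraMap_cl]
  rw [monic_poly, cl_eq_zero] at h2
  filter_upwards [h2] with N hN
  constructor
  · refine ⟨X ^ n + ∑ i ∈ Finset.range n, Polynomial.C (f i N) * X ^ i, ?_, ?_, ?_⟩
    · refine Polynomial.monic_X_pow_add ?_
      refine lt_of_le_of_lt (Polynomial.degree_sum_le _ _) ?_
      rw [Finset.sup_lt_iff (by
        rw [bot_lt_iff_ne_bot]
        exact WithBot.coe_ne_bot)]
      intro i hi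
      refine lt_of_le_of_lt (Polynomial.degree_C_mul_X_pow_le _ _) ?_
      exact_mod_cast Finset.mem_range.1 hi
    · refine Polynomial.natDegree_add_le_of_degree_le (by simp) ?_
      refine Polynomial.natDegree_sum_le_of_forall_le _ _ fun i hi => ?_
      exact (Polynomial.natDegree_C_mul_X_pow_le _ _).trans (Finset.mem_range.1 hi).le
    · rw [← hN]
      simp
  · intro φ
    have h3 : φ (t N ^ n + ∑ i ∈ Finset.range n, algebraMap ℚ Qb (f i N) * t N ^ i) = 0 := by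
      rw [hN]
      exact map_zero φ
    have h5 : ∀ i, φ (algebraMap ℚ Qb (f i N)) = ((f i N : ℚ) : ℂ) := fun i =>
      eq_ratCast (φ.comp (algebraMap ℚ Qb)) (f i N)
    have h4 : (φ (t N)) ^ n + ∑ i ∈ Finset.range n, ((f i N : ℚ) : ℂ) * (φ (t N)) ^ i = 0 := by
      rw [← h3, map_add, map_pow, map_sum]
      congr 1
      refine Finset.sum_congr rfl fun i _ => ?_
      rw [map_mul, map_pow, h5 i]
    refine (root_bound n _ _ h4).trans ((le_of_eq ?_).trans (hC N))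
    congr 1
    refine Finset.sum_congr rfl fun i _ => ?_
    rw [← Complex.ofReal_ratCast, Complex.norm_real, Real.norm_eq_abs]

/-- sequences with bounded monic integral equations are in `Q0bar` -/
theorem mem_Q0bar (H : ℕ → ℕ) (t : ℕ → Qb) (d C : ℕ) (h : ∀ᶠ N in UU, ∃ p : ℤ[X], p.Monic ∧
    p.natDegree ≤ d ∧ aeval (t N) p = 0 ∧ ∀ i, (p.coeff i).natAbs ≤ (H N + 2) ^ C) :
    cl t ∈ Q0bar H := by
  classical
  let S : ℕ → Prop := fun N => ∃ p : ℤ[X], p.Monic ∧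
    p.natDegree = d ∧ aeval (t N) p = 0 ∧ ∀ i, (p.coeff i).natAbs ≤ (H N + 2) ^ C
  have hS : ∀ᶠ N in UU, S N := by
    filter_upwards [h] with N hN
    obtain ⟨p, hp, hd, h0, hb⟩ := hN
    refine ⟨p * X ^ (d - p.natDegree), hp.mul (monic_X_pow _), ?_, ?_, ?_⟩
    · rw [hp.natDegree_mul (monic_X_pow _), natDegree_X_pow]
      omega
    · rw [map_mul, h0, zero_mul]
    · intro i
      rw [coeff_mul_X_pow']
      split_ifs
      · exact hb _
      · simp
  let p : ℕ → ℤ[X] := fun N => if hN : S N then hN.choose else 0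
  have hp : ∀ N, S N → (p N).Monic ∧ (p N).natDegree = d ∧ aeval (t N) (p N) = 0 ∧
      ∀ i, ((p N).coeff i).natAbs ≤ (H N + 2) ^ C := by
    intro N hN
    have : p N = hN.choose := dif_pos hN
    rw [this]
    exact hN.choose_spec
  have hp0 : ∀ N, ¬ S N → p N = 0 := fun N hN => dif_neg hN
  let f : ℕ → ℕ → ℚ := fun i N => ((p N).coeff i : ℚ)
  have hf : ∀ i, Small H (f i) := by
    intro i
    refine ⟨C, fun N => ?_⟩
    have e1 : (f i N).num = (p N).coeff i := Rat.num_intCast _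
    have e2 : (f i N).den = 1 := Rat.den_intCast _
    rw [e1, e2]
    refine ⟨?_, Nat.one_le_pow _ _ (by omega)⟩
    by_cases hN : S N
    · exact (hp N hN).2.2.2 i
    · rw [hp0 N hN]
      simp
  refine mem_Q0bar_of_root H (n := d) (a := fun i => ⟨cl (f i), f i, hf i, rfl⟩) ?_
  have e3 : cl t ^ d + ∑ i ∈ Finset.range d, algebraMap (Q0 H) QbS ⟨cl (f i), f i, hf i, rfl⟩ *
      cl t ^ i = cl t ^ d + ∑ i ∈ Finset.range d, cl (fun N => algebraMap ℚ Qb (f i N)) *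
      cl t ^ i := by
    congr 1
  rw [e3, monic_poly, cl_eq_zero]
  filter_upwards [hS] with N hN
  obtain ⟨h1, h2, h3, -⟩ := hp N hN
  rw [h1.as_sum, h2] at h3
  have h4 : t N ^ d + ∑ i ∈ Finset.range d, algebraMap ℚ Qb (f i N) * t N ^ i =
      aeval (t N) (X ^ d + ∑ i ∈ Finset.range d, Polynomial.C ((p N).coeff i) * X ^ i) := by
    simp [f]
  rw [h4]
  exact h3

end Pool.Agent.H51.CWF
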