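import Pool.Agent.H51.CWF.Fc

/-!
# [H51 CWF Fd] a generator of the coefficient field, and representatives
-/

set_option autoImplicit false

namespace Pool.Agent.H51.CWF

open Filter IntermediateField Pool.Agent.H82.NS Polynomial

theorem finite_coeff (H : ℕ → ℕ) {S : Set QbS} (hS : ∀ s ∈ S, ∃ r : QS, s = algebraMap QS QbS r)
    {z : QbS} (hz : z ∈ IntermediateField.adjoin (Q0bar H) S) :
    ∃ T : Finset QbS, (∀ t ∈ T, t ∈ Q0bar H) ∧ z ∈ IntermediateField.adjoin QS (T : Set QbS) := by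
  classical
  induction hz using IntermediateField.adjoin_induction with
  | mem z hz =>
    obtain ⟨r, rfl⟩ := hS z hz
    exact ⟨∅, by simp, IntermediateField.algebraMap_mem _ r⟩
  | algebraMap e =>
    refine ⟨{(e : QbS)}, ?_, ?_⟩
    · intro t ht
      rw [Finset.mem_singleton] at ht
      rw [ht]
      exact e.2
    · exact IntermediateField.subset_adjoin _ _ (by simp)
  | add a b _ _ ha hb =>
    obtain ⟨T, hT, h1⟩ := ha
    obtain ⟨T', hT', h2⟩ := hb
    refine ⟨T ∪ T', ?_, ?_⟩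
    · intro t ht
      rcases Finset.mem_union.1 ht with h | h
      · exact hT t h
      · exact hT' t h
    · refine add_mem (IntermediateField.adjoin.mono _ _ _ ?_ h1)
        (IntermediateField.adjoin.mono _ _ _ ?_ h2)
      · rw [Finset.coe_union]
        exact Set.subset_union_left
      · rw [Finset.coe_union]
        exact Set.subset_union_right
  | inv a _ ha =>
    obtain ⟨T, hT, h1⟩ := ha
    exact ⟨T, hT, inv_mem h1⟩
  | mul a b _ _ ha hb =>
    obtain ⟨T, hT, h1⟩ := ha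
    obtain ⟨T', hT', h2⟩ := hb
    refine ⟨T ∪ T', ?_, ?_⟩
    · intro t ht
      rcases Finset.mem_union.1 ht with h | h
      · exact hT t h
      · exact hT' t h
    · refine mul_mem (IntermediateField.adjoin.mono _ _ _ ?_ h1)
        (IntermediateField.adjoin.mono _ _ _ ?_ h2)
      · rw [Finset.coe_union]
        exact Set.subset_union_left
      · rw [Finset.coe_union]
        exact Set.subset_union_right

theorem primitive (H : ℕ → ℕ) (T : Finset QbS) (hT : ∀ t ∈ T, t ∈ Q0bar H) :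
    ∃ θ ∈ Q0bar H, IntermediateField.adjoin QS (T : Set QbS) ≤ IntermediateField.adjoin QS {θ} := by
  classical
  let F : IntermediateField (Q0 H) QbS := IntermediateField.adjoin (Q0 H) (T : Set QbS)
  have hfin : FiniteDimensional (Q0 H) F := by
    refine IntermediateField.finiteDimensional_adjoin fun t ht => ?_
    exact (mem_algebraicClosure_iff.1 (hT t ht)).isIntegral
  obtain ⟨α, hα⟩ := Field.exists_primitive_element (Q0 H) F
  have hF : F ≤ Q0bar H := IntermediateField.adjoin_le_iff.2 fun t ht => hT t ht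
  refine ⟨(α : QbS), hF α.2, ?_⟩
  rw [IntermediateField.adjoin_le_iff]
  intro t ht
  have htF : t ∈ F := IntermediateField.subset_adjoin _ _ ht
  have h1 : (⟨t, htF⟩ : F) ∈ IntermediateField.adjoin (Q0 H) {α} := by
    rw [hα]
    exact IntermediateField.mem_top
  have h2 : t ∈ (IntermediateField.adjoin (Q0 H) {α}).map F.val := ⟨⟨t, htF⟩, h1, rfl⟩
  rw [IntermediateField.adjoin_map, Set.image_singleton] at h2
  have h3 : ∀ s ∈ IntermediateField.adjoin (Q0 H) {F.val α},
      s ∈ IntermediateField.adjoin QS {(α : QbS)} := by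
    intro s hs
    induction hs using IntermediateField.adjoin_induction with
    | mem s hs =>
      rw [Set.mem_singleton_iff.1 hs]
      exact IntermediateField.subset_adjoin QS {(α : QbS)} rfl
    | algebraMap e => exact IntermediateField.algebraMap_mem _ (e : QS)
    | add a b _ _ ha hb => exact add_mem ha hb
    | inv a _ ha => exact inv_mem ha
    | mul a b _ _ ha hb => exact mul_mem ha hb
  exact h3 t h2

/-- the class of a sequence of natural numbers is in `QS` and in `Q0bar` -/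
theorem cn_eq (δ : ℕ → ℕ) : cn δ = algebraMap QS QbS (cl fun N => (δ N : ℚ)) := by
  rw [algebraMap_cl]
  unfold cn
  congr 1

theorem cn_Q0bar {H δ : ℕ → ℕ} (hδ : SN H δ) : cn δ ∈ Q0bar H := by
  obtain ⟨C, hC⟩ := hδ
  have h : Small H (fun N => (δ N : ℚ)) := ⟨C, fun N => by
    have e1 : ((δ N : ℚ)).num = (δ N : ℤ) := Rat.num_natCast _
    have e2 : ((δ N : ℚ)).den = 1 := Rat.den_natCast _
    rw [e1, e2, Int.natAbs_natCast]
    exact ⟨(hC N).2, Nat.one_le_pow _ _ (by omega)⟩⟩
  rw [cn_eq]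
  exact (Q0bar H).algebraMap_mem (⟨cl fun N => (δ N : ℚ), _, h, rfl⟩ : Q0 H)

theorem generator (H : ℕ → ℕ) (T : Finset QbS) (hT : ∀ t ∈ T, t ∈ Q0bar H) :
    ∃ τ : ℕ → Qb, (∀ N, IsIntegral ℤ (τ N)) ∧ cl τ ∈ Q0bar H ∧
      IntermediateField.adjoin QS (T : Set QbS) ≤ IntermediateField.adjoin QS {cl τ} := by
  obtain ⟨θ, hθ, h1⟩ := primitive H T hT
  obtain ⟨δ, hδ, τ, hτ, h2⟩ := Q0bar_le_DD H hθ
  refine ⟨τ, hτ, ?_, h1.trans ?_⟩
  · rw [← h2]
    exact mul_mem (cn_Q0bar hδ) hθ
  · rw [IntermediateField.adjoin_le_iff]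
    intro s hs
    rw [Set.mem_singleton_iff.1 hs]
    have h3 : θ = (cn δ)⁻¹ * cl τ := by
      rw [← h2, ← mul_assoc, inv_mul_cancel₀ (cn_ne_zero hδ), one_mul]
    rw [h3]
    refine mul_mem (inv_mem ?_) (IntermediateField.subset_adjoin QS {cl τ} rfl)
    rw [cn_eq]
    exact IntermediateField.algebraMap_mem _ _

theorem aeval_cl (τ : ℕ → Qb) (r : QS[X]) : ∃ a : ℕ → Qb,
    (∀ N, a N ∈ IntermediateField.adjoin ℚ {τ N}) ∧ aeval (cl τ) r = cl a := by
  have hc : ∀ i, ∃ c : ℕ → ℚ, r.coeff i = cl c := fun i => cl_surj _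
  choose c hc using hc
  refine ⟨fun N => ∑ i ∈ Finset.range (r.natDegree + 1), algebraMap ℚ Qb (c i N) * τ N ^ i,
    fun N => ?_, ?_⟩
  · refine sum_mem fun i _ => mul_mem (IntermediateField.algebraMap_mem _ _) (pow_mem ?_ _)
    exact IntermediateField.subset_adjoin ℚ {τ N} rfl
  · rw [aeval_eq_sum_range]
    rw [← cl_poly]
    refine Finset.sum_congr rfl fun i _ => ?_
    rw [hc i, Algebra.smul_def, algebraMap_cl]

theorem mem_adjoin_cl (τ : ℕ → Qb) {z : QbS} (hz : z ∈ IntermediateField.adjoin QS {cl τ}) :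
    ∃ a : ℕ → Qb, (∀ N, a N ∈ IntermediateField.adjoin ℚ {τ N}) ∧ z = cl a := by
  obtain ⟨r, s, h⟩ := (IntermediateField.mem_adjoin_simple_iff QS z).1 hz
  obtain ⟨a, ha, h1⟩ := aeval_cl τ r
  obtain ⟨b, hb, h2⟩ := aeval_cl τ s
  refine ⟨fun N => a N * (b N)⁻¹, fun N => mul_mem (ha N) (inv_mem (hb N)), ?_⟩
  rw [h, h1, h2, div_eq_mul_inv, cl_inv, cl_mul]

/-- elements of `ℚ(τ N)` with bounded degree give elements of `QS(cl τ)` -/
theorem cl_mem_adjoin (τ : ℕ → Qb) (n : ℕ) (hn : ∀ᶠ N in UU, ∃ p : ℚ[X], p.Monic ∧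
    p.natDegree ≤ n ∧ aeval (τ N) p = 0) (a : ℕ → Qb)
    (ha : ∀ᶠ N in UU, a N ∈ IntermediateField.adjoin ℚ {τ N}) :
    cl a ∈ IntermediateField.adjoin QS {cl τ} := by
  classical
  have h1 : ∀ᶠ N in UU, ∃ q : ℚ[X], q.natDegree < n + 1 ∧ aeval (τ N) q = a N := by
    filter_upwards [hn, ha] with N hN haN
    obtain ⟨p, hp, hd, h0⟩ := hN
    have hint : IsIntegral ℚ (τ N) := ⟨p, hp, h0⟩
    have h2 : a N ∈ (IntermediateField.adjoin ℚ {τ N}).toSubalgebra := haN
    rw [IntermediateField.adjoin_simple_toSubalgebra_of_isAlgebraic hint.isAlgebraic,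
      Algebra.adjoin_singleton_eq_range_aeval] at h2
    obtain ⟨q, hq⟩ := h2
    refine ⟨q %ₘ p, ?_, ?_⟩
    · have := natDegree_modByMonic_le q hp
      omega
    · rw [← hq]
      have h3 := modByMonic_add_div q p
      have h4 := congrArg (aeval (τ N)) h3
      rw [map_add, map_mul, h0, zero_mul, add_zero] at h4
      exact h4
  let q : ℕ → ℚ[X] := fun N => if hN : ∃ q : ℚ[X], q.natDegree < n + 1 ∧ aeval (τ N) q = a N
    then hN.choose else 0
  have hq : ∀ᶠ N in UU, a N = ∑ i ∈ Finset.range (n + 1), algebraMap ℚ Qb ((q N).coeff i) *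
      τ N ^ i := by
    filter_upwards [h1] with N hN
    have e : q N = hN.choose := dif_pos hN
    have h := hN.choose_spec
    rw [← e] at h
    have h' := h.2
    rw [aeval_eq_sum_range' h.1] at h'
    rw [← h']
    refine Finset.sum_congr rfl fun i _ => ?_
    rw [Algebra.smul_def]
  have h5 : cl a = ∑ i ∈ Finset.range (n + 1), cl (fun N => algebraMap ℚ Qb ((q N).coeff i)) *
      cl τ ^ i := by
    rw [cl_poly, cl_eq]
    exact hq
  rw [h5]
  refine sum_mem fun i _ => mul_mem ?_ (pow_mem (IntermediateField.subset_adjoin QS {cl τ} rfl) _)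
  rw [← algebraMap_cl]
  exact IntermediateField.algebraMap_mem _ _

end Pool.Agent.H51.CWF
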