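import Pool.Agent.H51.CWF.Fb
import Pool.Agent.H51.CW.Wg

/-!
# [H51 CWF Fe] Chevalley-Weil at one point, all bounds in terms of a generator
-/

set_option autoImplicit false

namespace Pool.Agent.H51.CWF

open IntermediateField Polynomial NumberField Module

abbrev Qa : Type := AlgebraicClosure ℚ

theorem top_irrel {K : Type*} [Field K] (i j : Algebra ℚ K) (x : K)
    (h : @IntermediateField.adjoin ℚ _ K _ i {x} = ⊤) : @IntermediateField.adjoin ℚ _ K _ j {x} = ⊤ := by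
  obtain rfl : i = j := Subsingleton.elim _ _
  exact h

theorem alg_irrel {K : Type*} [Field K] (i j : Algebra ℚ K)
    (h : @Algebra.IsAlgebraic ℚ K _ _ i) : @Algebra.IsAlgebraic ℚ K _ _ j := by
  obtain rfl : i = j := Subsingleton.elim _ _
  exact h

theorem gen_top {F L : Type*} [Field F] [Field L] [Algebra F L] (τ : L) :
    IntermediateField.adjoin F {AdjoinSimple.gen F τ} = ⊤ := by
  apply IntermediateField.lift_injective
  rw [IntermediateField.lift_adjoin, IntermediateField.lift_top, Set.image_singleton]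
  rfl

theorem box_arith (X n C D l d : ℕ) (hd : d ≤ n) (hX : 2 ≤ X) (hn : n ≤ X ^ n) (Δ δ : ℝ) (hΔ0 : 0 ≤ Δ)
    (hΔ : Δ ≤ d.factorial * ((d : ℝ) * ((X : ℝ) ^ C) ^ (2 * d)) ^ d) (hδ0 : 1 ≤ δ)
    (hδ : δ ≤ (X : ℝ) ^ D) :
    (2 ^ d * (Δ + 1)) ^ (l * d) * δ ^ (d * (l - 1)) ≤
      (X : ℝ) ^ ((n + (2 * n ^ 2 + 2 * n ^ 2 * C + 1)) * (l * n) + D * (n * l)) := by
  have hX1 : (1 : ℝ) ≤ X := by
    have : (2 : ℝ) ≤ X := by exact_mod_cast hX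
    linarith
  have hX2 : (2 : ℝ) ≤ X := by exact_mod_cast hX
  have hX0 : (0 : ℝ) < X := by linarith
  have hnX : (n : ℝ) ≤ (X : ℝ) ^ n := by exact_mod_cast hn
  have hdn : (d : ℝ) ≤ n := by exact_mod_cast hd
  have hdX : (d : ℝ) ≤ (X : ℝ) ^ n := hdn.trans hnX
  have h1 : (d.factorial : ℝ) ≤ (X : ℝ) ^ (n * n) := by
    have e1 : (d.factorial : ℝ) ≤ (d : ℝ) ^ d := by exact_mod_cast Nat.factorial_le_pow d
    calc (d.factorial : ℝ) ≤ (d : ℝ) ^ d := e1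
      _ ≤ ((X : ℝ) ^ n) ^ d := pow_le_pow_left₀ (Nat.cast_nonneg _) hdX _
      _ = (X : ℝ) ^ (n * d) := by rw [← pow_mul]
      _ ≤ (X : ℝ) ^ (n * n) := pow_le_pow_right₀ hX1 (Nat.mul_le_mul_left _ hd)
  have h2 : (d : ℝ) * ((X : ℝ) ^ C) ^ (2 * d) ≤ (X : ℝ) ^ (n + 2 * n * C) := by
    calc (d : ℝ) * ((X : ℝ) ^ C) ^ (2 * d) ≤ (X : ℝ) ^ n * ((X : ℝ) ^ C) ^ (2 * d) := by gcongr
      _ = (X : ℝ) ^ (n + C * (2 * d)) := by rw [← pow_mul, ← pow_add]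
      _ ≤ (X : ℝ) ^ (n + 2 * n * C) := by
        refine pow_le_pow_right₀ hX1 ?_
        have : C * (2 * d) ≤ C * (2 * n) := Nat.mul_le_mul_left _ (Nat.mul_le_mul_left _ hd)
        have e : C * (2 * n) = 2 * n * C := by ring
        omega
  have h3 : ((d : ℝ) * ((X : ℝ) ^ C) ^ (2 * d)) ^ d ≤ (X : ℝ) ^ ((n + 2 * n * C) * n) := by
    calc ((d : ℝ) * ((X : ℝ) ^ C) ^ (2 * d)) ^ d ≤ ((X : ℝ) ^ (n + 2 * n * C)) ^ d :=
          pow_le_pow_left₀ (by positivity) h2 _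
      _ = (X : ℝ) ^ ((n + 2 * n * C) * d) := by rw [← pow_mul]
      _ ≤ _ := pow_le_pow_right₀ hX1 (Nat.mul_le_mul_left _ hd)
  have h4 : Δ ≤ (X : ℝ) ^ (2 * n ^ 2 + 2 * n ^ 2 * C) := by
    calc Δ ≤ _ := hΔ
      _ ≤ (X : ℝ) ^ (n * n) * (X : ℝ) ^ ((n + 2 * n * C) * n) := by gcongr
      _ = _ := by
        rw [← pow_add]
        congr 1
        ring
  have h5 : Δ + 1 ≤ (X : ℝ) ^ (2 * n ^ 2 + 2 * n ^ 2 * C + 1) := by
    have e1 : (1 : ℝ) ≤ (X : ℝ) ^ (2 * n ^ 2 + 2 * n ^ 2 * C) := one_le_pow₀ hX1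
    rw [pow_succ]
    nlinarith
  have h6 : (2 : ℝ) ^ d ≤ (X : ℝ) ^ n :=
    (pow_le_pow_left₀ (by norm_num) hX2 _).trans (pow_le_pow_right₀ hX1 hd)
  have h7 : (2 ^ d * (Δ + 1)) ≤ (X : ℝ) ^ (n + (2 * n ^ 2 + 2 * n ^ 2 * C + 1)) := by
    rw [pow_add]
    gcongr
  have h8 : (2 ^ d * (Δ + 1)) ^ (l * d) ≤
      (X : ℝ) ^ ((n + (2 * n ^ 2 + 2 * n ^ 2 * C + 1)) * (l * n)) := by
    calc (2 ^ d * (Δ + 1)) ^ (l * d) ≤
          ((X : ℝ) ^ (n + (2 * n ^ 2 + 2 * n ^ 2 * C + 1))) ^ (l * d) :=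
          pow_le_pow_left₀ (by positivity) h7 _
      _ = (X : ℝ) ^ ((n + (2 * n ^ 2 + 2 * n ^ 2 * C + 1)) * (l * d)) := by rw [← pow_mul]
      _ ≤ _ := pow_le_pow_right₀ hX1 (Nat.mul_le_mul_left _ (Nat.mul_le_mul_left _ hd))
  have h9 : δ ^ (d * (l - 1)) ≤ (X : ℝ) ^ (D * (n * l)) := by
    calc δ ^ (d * (l - 1)) ≤ ((X : ℝ) ^ D) ^ (d * (l - 1)) :=
          pow_le_pow_left₀ (by linarith) hδ _
      _ = (X : ℝ) ^ (D * (d * (l - 1))) := by rw [← pow_mul]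
      _ ≤ _ := pow_le_pow_right₀ hX1 (Nat.mul_le_mul_left _ (Nat.mul_le_mul hd (Nat.sub_le _ _)))
  rw [pow_add]
  have h10 : 0 ≤ δ ^ (d * (l - 1)) := pow_nonneg (by linarith) _
  exact mul_le_mul h8 h9 h10 (by positivity)

theorem pt_abs {K : Type*} [Field K] [NumberField K] (n C D l δ X : ℕ) (hX : 2 ≤ X) (hnX : n ≤ X ^ n)
    (hl : 1 ≤ l) (hδ : δ ≠ 0) (hδX : δ ≤ X ^ D) (θ : 𝓞 K)
    (hθ : IntermediateField.adjoin ℚ {(θ : K)} = ⊤) (hd : finrank ℚ K ≤ n)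
    (hφ : ∀ φ : K →+* ℂ, ‖φ (θ : K)‖ ≤ (X : ℝ) ^ C)
    (f f' A B p : K) (hf0 : f ≠ 0)
    (hf : IsIntegral ℤ ((δ : K) * f)) (hf' : IsIntegral ℤ ((δ : K) * f'))
    (hA : IsIntegral ℤ ((δ : K) * A)) (hB : IsIntegral ℤ ((δ : K) * B))
    (h1 : A * f + B * f' = 1) (h2 : f' = f * p ^ l) :
    ∃ (u v : K) (e : ℕ), u ≠ 0 ∧ e ≠ 0 ∧
      e ≤ X ^ ((n + (2 * n ^ 2 + 2 * n ^ 2 * C + 1)) * (l * n) + D * (n * l)) ∧
      f = u * v ^ l ∧ ∃ q : ℤ[X], q.Monic ∧ q.natDegree ≤ n ∧ aeval ((e : K) * u) q = 0 ∧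
        ∀ i, (q.coeff i).natAbs ≤
          X ^ (2 * ((n + (2 * n ^ 2 + 2 * n ^ 2 * C + 1)) * (l * n) + D * (n * l)) * n + n) := by
  classical
  obtain ⟨u, v, e, hu, hv, he, huv, hi, heb, hw⟩ := H51.CW.cw_box hl hδ f f' A B p hf0 hf hf' hA hB h1 h2
  have hX1 : (1 : ℝ) ≤ X := by
    have : (2 : ℝ) ≤ X := by exact_mod_cast hX
    linarith
  have hX2 : (2 : ℝ) ≤ X := by exact_mod_cast hX
  have hdisc := disc_bound K θ hθ ((X : ℝ) ^ C) (one_le_pow₀ hX1) hφ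
  have hδ1 : (1 : ℝ) ≤ δ := by exact_mod_cast Nat.one_le_iff_ne_zero.2 hδ
  have hbox := box_arith X n C D l (finrank ℚ K) hd hX hnX |(discr K : ℝ)| δ (abs_nonneg _) hdisc hδ1
    (by exact_mod_cast hδX)
  set E := (n + (2 * n ^ 2 + 2 * n ^ 2 * C + 1)) * (l * n) + D * (n * l) with hE
  have heE : (e : ℝ) ≤ (X : ℝ) ^ E := heb.trans hbox
  have hwE : ∀ w : InfinitePlace K, w u ≤ (X : ℝ) ^ E := fun w => (hw w).trans hbox
  refine ⟨u, v, e, hu, he, by exact_mod_cast heE, huv, minpoly ℤ ((e : K) * u),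
    minpoly.monic hi, ?_, minpoly.aeval _ _, fun i => ?_⟩
  · have h3 := minpoly.isIntegrallyClosed_eq_field_fractions' ℚ hi
    have h4 : (minpoly ℚ ((e : K) * u)).natDegree = (minpoly ℤ ((e : K) * u)).natDegree := by
      rw [h3]
      exact (minpoly.monic hi).natDegree_map _
    rw [← h4]
    exact (minpoly.natDegree_le _).trans hd
  · have h3 := minpoly.isIntegrallyClosed_eq_field_fractions' ℚ hi
    have hb : ∀ φ : K →+* ℂ, ‖φ ((e : K) * u)‖ ≤ (X : ℝ) ^ (2 * E) := by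
      intro φ
      rw [map_mul, norm_mul, map_natCast, Complex.norm_natCast, ← InfinitePlace.apply φ u, two_mul,
        pow_add]
      exact mul_le_mul heE (hwE _) (apply_nonneg _ _) (by positivity)
    have h5 := Embeddings.coeff_bdd_of_norm_le hb i
    have h6 : ‖(minpoly ℚ ((e : K) * u)).coeff i‖ =
        (((minpoly ℤ ((e : K) * u)).coeff i).natAbs : ℝ) := by
      rw [h3, coeff_map, eq_intCast, Nat.cast_natAbs, Int.cast_abs]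
      exact Int.norm_cast_rat _
    rw [h6] at h5
    have h7 : (1 : ℝ) ≤ (X : ℝ) ^ (2 * E) := one_le_pow₀ hX1
    have h8 : ((finrank ℚ K).choose (finrank ℚ K / 2) : ℝ) ≤ (X : ℝ) ^ n := by
      have e1 : (finrank ℚ K).choose (finrank ℚ K / 2) ≤ 2 ^ (finrank ℚ K) := Nat.choose_le_two_pow _ _
      have e2 : ((finrank ℚ K).choose (finrank ℚ K / 2) : ℝ) ≤ 2 ^ (finrank ℚ K) := by
        exact_mod_cast e1
      exact e2.trans ((pow_le_pow_left₀ (by norm_num) hX2 _).trans (pow_le_pow_right₀ hX1 hd))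
    have h9 : (((minpoly ℤ ((e : K) * u)).coeff i).natAbs : ℝ) ≤ (X : ℝ) ^ (2 * E * n + n) := by
      refine h5.trans ?_
      rw [max_eq_left h7, pow_add]
      have h10 : ((X : ℝ) ^ (2 * E)) ^ finrank ℚ K ≤ (X : ℝ) ^ (2 * E * n) := by
        rw [← pow_mul]
        exact pow_le_pow_right₀ hX1 (Nat.mul_le_mul_left _ hd)
      gcongr
    exact_mod_cast h9

theorem pt (n C D l δ X : ℕ) (hX : 2 ≤ X) (hnX : n ≤ X ^ n) (hl : 1 ≤ l) (hδ : δ ≠ 0) (hδX : δ ≤ X ^ D)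
    (τ : Qa) (hτ : IsIntegral ℤ τ) (hn : ∃ p : ℚ[X], p.Monic ∧ p.natDegree ≤ n ∧ aeval τ p = 0)
    (hφ : ∀ φ : Qa →+* ℂ, ‖φ τ‖ ≤ (X : ℝ) ^ C)
    (f f' A B p : Qa) (mf : f ∈ IntermediateField.adjoin ℚ {τ}) (mf' : f' ∈ IntermediateField.adjoin ℚ {τ})
    (mA : A ∈ IntermediateField.adjoin ℚ {τ}) (mB : B ∈ IntermediateField.adjoin ℚ {τ})
    (mp : p ∈ IntermediateField.adjoin ℚ {τ}) (hf0 : f ≠ 0)
    (hf : IsIntegral ℤ ((δ : Qa) * f)) (hf' : IsIntegral ℤ ((δ : Qa) * f'))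
    (hA : IsIntegral ℤ ((δ : Qa) * A)) (hB : IsIntegral ℤ ((δ : Qa) * B))
    (h1 : A * f + B * f' = 1) (h2 : f' = f * p ^ l) :
    ∃ (u v : Qa) (e : ℕ), v ∈ IntermediateField.adjoin ℚ {τ} ∧ u ≠ 0 ∧ e ≠ 0 ∧
      e ≤ X ^ ((n + (2 * n ^ 2 + 2 * n ^ 2 * C + 1)) * (l * n) + D * (n * l)) ∧
      f = u * v ^ l ∧ ∃ q : ℤ[X], q.Monic ∧ q.natDegree ≤ n ∧ aeval ((e : Qa) * u) q = 0 ∧
        ∀ i, (q.coeff i).natAbs ≤
          X ^ (2 * ((n + (2 * n ^ 2 + 2 * n ^ 2 * C + 1)) * (l * n) + D * (n * l)) * n + n) := by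
  classical
  obtain ⟨p0, hp0, hd0, h00⟩ := hn
  have hint : IsIntegral ℚ τ := ⟨p0, hp0, h00⟩
  haveI hfin : FiniteDimensional ℚ (IntermediateField.adjoin ℚ {τ}) :=
    IntermediateField.adjoin.finiteDimensional hint
  haveI hNF : NumberField (IntermediateField.adjoin ℚ {τ}) := ⟨⟩
  have hinj : Function.Injective (algebraMap (IntermediateField.adjoin ℚ {τ}) Qa) :=
    (algebraMap (IntermediateField.adjoin ℚ {τ}) Qa).injective
  have hI : ∀ z : IntermediateField.adjoin ℚ {τ}, IsIntegral ℤ (z : Qa) → IsIntegral ℤ z := by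
    intro z hz
    exact (isIntegral_algebraMap_iff (R := ℤ) hinj).1 hz
  have hgi : IsIntegral ℤ (AdjoinSimple.gen ℚ τ) := hI _ hτ
  have htop := top_irrel _ (DivisionRing.toRatAlgebra) _ (gen_top (F := ℚ) τ)
  have hdeg : finrank ℚ (IntermediateField.adjoin ℚ {τ}) ≤ n := by
    rw [IntermediateField.adjoin.finrank hint]
    refine le_trans ?_ hd0
    exact natDegree_le_natDegree (minpoly.min ℚ τ hp0 h00)
  have hφ' : ∀ φ : (IntermediateField.adjoin ℚ {τ}) →+* ℂ, ‖φ (AdjoinSimple.gen ℚ τ)‖ ≤ (X : ℝ) ^ C := by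
    intro φ
    let _ := φ.toAlgebra
    have hQ : Algebra.IsAlgebraic ℚ Qa := alg_irrel _ _ (AlgebraicClosure.isAlgebraic ℚ)
    have : Algebra.IsAlgebraic (IntermediateField.adjoin ℚ {τ}) Qa :=
      Algebra.IsAlgebraic.tower_top (K := ℚ) _
    let ψ : Qa →ₐ[IntermediateField.adjoin ℚ {τ}] ℂ := IsAlgClosed.lift
    have h3 : φ (AdjoinSimple.gen ℚ τ) = ψ.toRingHom τ := (ψ.commutes (AdjoinSimple.gen ℚ τ)).symm
    rw [h3]
    exact hφ _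
  obtain ⟨u, v, e, hu, he, heE, huv, q, hq, hqd, hq0, hqc⟩ :=
    pt_abs n C D l δ X hX hnX hl hδ hδX (⟨AdjoinSimple.gen ℚ τ, hgi⟩ :
      𝓞 (IntermediateField.adjoin ℚ {τ})) htop hdeg hφ' ⟨f, mf⟩ ⟨f', mf'⟩ ⟨A, mA⟩ ⟨B, mB⟩ ⟨p, mp⟩
      (fun h => hf0 (congrArg Subtype.val h)) (hI _ hf) (hI _ hf') (hI _ hA) (hI _ hB)
      (Subtype.ext h1) (Subtype.ext h2)
  refine ⟨u, v, e, v.2, fun h => hu (Subtype.ext h), he, heE, congrArg Subtype.val huv, q, hq, hqd,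
    ?_, hqc⟩
  have h5 := congrArg (algebraMap (IntermediateField.adjoin ℚ {τ}) Qa) hq0
  rw [map_zero, ← aeval_algebraMap_apply, map_mul, map_natCast] at h5
  exact h5

end Pool.Agent.H51.CWF
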