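import Pool.Agent.H51.CWF.Fd
import Pool.Agent.H51.CWF.Fe

/-!
# [H51 CWF Ff] Chevalley-Weil inside the nonstandard frame
-/

set_option autoImplicit false

namespace Pool.Agent.H51.CWF

open Filter IntermediateField Pool.Agent.H82.NS Polynomial

theorem cwf_main (H : ℕ → ℕ) (x y : QS) (hx : x ∈ ZS) (l : ℕ) (hl : 1 ≤ l) (f f' p A B : QbS)
    (hm : ∀ z ∈ ({f, f', p, A, B} : Set QbS),
      z ∈ IntermediateField.adjoin (Q0bar H) ({algebraMap QS QbS x, algebraMap QS QbS y} : Set QbS))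
    (hi : ∀ z ∈ ({f, f', A, B} : Set QbS), IsIntegral (Algebra.adjoin (Q0bar H) {algebraMap QS QbS x}) z)
    (hf : f ≠ 0) (hAB : A * f + B * f' = 1) (hfp : f' = f * p ^ l) :
    ∃ c ∈ Q0bar H, c ≠ 0 ∧ ∃ v : QbS, v ^ l = c * f ∧ ∃ θ ∈ Q0bar H, v ∈ IntermediateField.adjoin QS {θ} := by
  classical
  -- the coefficient field
  have hS : ∀ s ∈ ({algebraMap QS QbS x, algebraMap QS QbS y} : Set QbS), ∃ r : QS, s = algebraMap QS QbS r := by
    intro s hs
    rcases hs with rfl | hs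
    · exact ⟨x, rfl⟩
    · exact ⟨y, hs⟩
  obtain ⟨T1, hT1, m1⟩ := finite_coeff H hS (hm f (by simp))
  obtain ⟨T2, hT2, m2⟩ := finite_coeff H hS (hm f' (by simp))
  obtain ⟨T3, hT3, m3⟩ := finite_coeff H hS (hm p (by simp))
  obtain ⟨T4, hT4, m4⟩ := finite_coeff H hS (hm A (by simp))
  obtain ⟨T5, hT5, m5⟩ := finite_coeff H hS (hm B (by simp))
  let T : Finset QbS := T1 ∪ (T2 ∪ (T3 ∪ (T4 ∪ T5)))
  have hT : ∀ t ∈ T, t ∈ Q0bar H := by
    intro t ht
    simp only [T, Finset.mem_union] at ht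
    rcases ht with h | h | h | h | h
    · exact hT1 t h
    · exact hT2 t h
    · exact hT3 t h
    · exact hT4 t h
    · exact hT5 t h
  obtain ⟨τ, hτ, hτQ, hle⟩ := generator H T hT
  have hsub : ∀ T' : Finset QbS, (∀ t ∈ T', t ∈ T) → IntermediateField.adjoin QS (T' : Set QbS) ≤
      IntermediateField.adjoin QS {cl τ} := fun T' h =>
    (IntermediateField.adjoin.mono QS _ _ (fun t ht => h t ht)).trans hle
  have n1 := hsub T1 (fun t ht => by simp only [T, Finset.mem_union]; tauto) m1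
  have n2 := hsub T2 (fun t ht => by simp only [T, Finset.mem_union]; tauto) m2
  have n3 := hsub T3 (fun t ht => by simp only [T, Finset.mem_union]; tauto) m3
  have n4 := hsub T4 (fun t ht => by simp only [T, Finset.mem_union]; tauto) m4
  have n5 := hsub T5 (fun t ht => by simp only [T, Finset.mem_union]; tauto) m5
  -- bounded denominators
  have hxO := ZS_le_OO hx
  have d1 := int_DD H hxO (hi f (by simp))
  have d2 := int_DD H hxO (hi f' (by simp))
  have d4 := int_DD H hxO (hi A (by simp))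
  have d5 := int_DD H hxO (hi B (by simp))
  obtain ⟨δ, hδ, hδi⟩ := DD_common H 4
    (fun i => if i = 0 then f else if i = 1 then f' else if i = 2 then A else B) (fun i => by
      show (if i = 0 then f else if i = 1 then f' else if i = 2 then A else B) ∈ DD H
      split_ifs
      · exact d1
      · exact d2
      · exact d4
      · exact d5)
  have o1 : cn δ * f ∈ OO := by simpa using hδi 0 (by norm_num)
  have o2 : cn δ * f' ∈ OO := by simpa using hδi 1 (by norm_num)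
  have o4 : cn δ * A ∈ OO := by simpa using hδi 2 (by norm_num)
  have o5 : cn δ * B ∈ OO := by simpa using hδi 3 (by norm_num)
  obtain ⟨D, hD⟩ := hδ
  -- representatives
  obtain ⟨g, hg, rfl⟩ := mem_adjoin_cl τ n1
  obtain ⟨g', hg', rfl⟩ := mem_adjoin_cl τ n2
  obtain ⟨q, hq, rfl⟩ := mem_adjoin_cl τ n3
  obtain ⟨a, ha, rfl⟩ := mem_adjoin_cl τ n4
  obtain ⟨b, hb, rfl⟩ := mem_adjoin_cl τ n5
  obtain ⟨n, C, hnC⟩ := conj_bound H τ hτQ
  have e1 : ∀ᶠ N in UU, IsIntegral ℤ ((δ N : Qb) * g N) := mem_OO.1 o1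
  have e2 : ∀ᶠ N in UU, IsIntegral ℤ ((δ N : Qb) * g' N) := mem_OO.1 o2
  have e4 : ∀ᶠ N in UU, IsIntegral ℤ ((δ N : Qb) * a N) := mem_OO.1 o4
  have e5 : ∀ᶠ N in UU, IsIntegral ℤ ((δ N : Qb) * b N) := mem_OO.1 o5
  have e6 : ∀ᶠ N in UU, g N ≠ 0 := by
    by_contra hcon
    apply hf
    rw [cl_eq_zero]
    have h := (Ultrafilter.eventually_not (f := hyperfilter ℕ) (p := fun N => g N ≠ 0)).2 hcon
    filter_upwards [h] with N hN
    exact not_not.1 hN
  have e7 : ∀ᶠ N in UU, a N * g N + b N * g' N = 1 := by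
    rw [cl_mul, cl_mul, cl_add, cl_one, cl_eq] at hAB
    exact hAB
  have e8 : ∀ᶠ N in UU, g' N = g N * q N ^ l := by
    rw [cl_pow, cl_mul, cl_eq] at hfp
    exact hfp
  let E := (n + (2 * n ^ 2 + 2 * n ^ 2 * C + 1)) * (l * n) + D * (n * l)
  let Good : ℕ → ℕ → Qb → Qb → Prop := fun N e u v => v ∈ IntermediateField.adjoin ℚ {τ N} ∧
    u ≠ 0 ∧ g N = u * v ^ l ∧ ∃ q : ℤ[X], q.Monic ∧ q.natDegree ≤ n ∧
      aeval ((e : Qb) * u) q = 0 ∧ ∀ i, (q.coeff i).natAbs ≤ (H N + 2) ^ (2 * E * n + n)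
  have key : ∀ᶠ N in UU, ∃ (u v : Qb) (e : ℕ), e ≠ 0 ∧ e ≤ (H N + 2) ^ E ∧ Good N e u v := by
    filter_upwards [e1, e2, e4, e5, e6, e7, e8, hnC] with N k1 k2 k4 k5 k6 k7 k8 k9
    obtain ⟨u, v, e, hv, hu, he, heE, huv, hr⟩ := pt n C D l (δ N) (H N + 2) (by omega)
      (pow_absorb (H N) n) hl (hD N).1 (hD N).2 (τ N) (hτ N) k9.1 k9.2 (g N) (g' N) (a N) (b N) (q N)
      (hg N) (hg' N) (ha N) (hb N) (hq N) k6 k1 k2 k4 k5 k7 k8
    exact ⟨u, v, e, he, heE, hv, hu, huv, hr⟩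
  have key2 : ∀ N, ∃ (u v : Qb) (e : ℕ), e ≠ 0 ∧ e ≤ (H N + 2) ^ E ∧
      ((∃ (u v : Qb) (e : ℕ), e ≠ 0 ∧ e ≤ (H N + 2) ^ E ∧ Good N e u v) → Good N e u v) := by
    intro N
    by_cases h : ∃ (u v : Qb) (e : ℕ), e ≠ 0 ∧ e ≤ (H N + 2) ^ E ∧ Good N e u v
    · obtain ⟨u, v, e, h1, h2, h3⟩ := h
      exact ⟨u, v, e, h1, h2, fun _ => h3⟩
    · exact ⟨0, 0, 1, one_ne_zero, Nat.one_le_pow _ _ (by omega), fun h' => absurd h' h⟩
  choose u v e he heE hG using key2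
  have G : ∀ᶠ N in UU, Good N (e N) (u N) (v N) := by
    filter_upwards [key] with N hN
    exact hG N hN
  have hSe : SN H e := ⟨E, fun N => ⟨he N, heE N⟩⟩
  have q1 : cl (fun N => (e N : Qb) * u N) ∈ Q0bar H := by
    refine mem_Q0bar H _ n (2 * E * n + n) ?_
    filter_upwards [G] with N hN
    exact hN.2.2.2
  have q2 : cl u ∈ Q0bar H := by
    have h1 : cl u = (cn e)⁻¹ * cl (fun N => (e N : Qb) * u N) := by
      have h2 : cl (fun N => (e N : Qb) * u N) = cn e * cl u := rfl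
      rw [h2, ← mul_assoc, inv_mul_cancel₀ (cn_ne_zero hSe), one_mul]
    rw [h1]
    exact mul_mem (inv_mem (cn_Q0bar hSe)) q1
  have q3 : cl u ≠ 0 := by
    intro h0
    rw [cl_eq_zero] at h0
    obtain ⟨N, h1, h2⟩ := (h0.and G).exists
    exact h2.2.1 h1
  have q4 : cl g = cl u * cl v ^ l := by
    rw [cl_pow, cl_mul, cl_eq]
    filter_upwards [G] with N hN
    exact hN.2.2.1
  refine ⟨(cl u)⁻¹, inv_mem q2, inv_ne_zero q3, cl v, ?_, cl τ, hτQ, ?_⟩
  · rw [q4, ← mul_assoc, inv_mul_cancel₀ q3, one_mul]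
  · refine cl_mem_adjoin τ n ?_ v ?_
    · filter_upwards [hnC] with N hN
      exact hN.1
    · filter_upwards [G] with N hN
      exact hN.1

end Pool.Agent.H51.CWF
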